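import Pool.Agent.H78.GS.TA3

/-!
# Inner stretches (board gs3_modules, ACTP)
-/

set_option autoImplicit false

open Finset Pool.Agent.H6.N4D Pool.Agent.H78.GS

namespace Pool.Agent.H13.GSA

theorem pf_CTP : T_CTP := by
  intro S m hS hm h12
  have hh := hS.hh
  have hL0 : 0 ≤ S.L := by
    unfold Par.L LL
    exact Real.rpow_nonneg (Real.log_nonneg hS.hX) _
  have hm0 : (0 : ℝ) ≤ m := by exact_mod_cast hm
  have hK0 : (0 : ℝ) ≤ S.K := Nat.cast_nonneg _
  have hKL : 0 ≤ S.K * S.L := mul_nonneg hK0 hL0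
  have hNc : (cut S m).N = S.N - 2 * m := by
    show ((S.b - m : ℤ) : ℝ) - ((S.a + m : ℤ) : ℝ) = ((S.b : ℝ) - S.a) - 2 * m
    push_cast
    ring
  have hmem : ∀ t, t ∈ (cut S m).I ↔ S.a + m ≤ t ∧ t < S.b - m := fun t => Par.mem_I
  have hsub : (cut S m).I ⊆ S.I := by
    intro t ht
    rw [hmem] at ht
    rw [Par.mem_I]
    omega
  have hshift : ∀ t ∈ (cut S m).I, ∀ v : ℤ, |v| ≤ m → t + v ∈ S.I := by
    intro t ht v hv
    rw [hmem] at ht
    rw [abs_le] at hv
    rw [Par.mem_I]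
    omega
  have hNh : (cut S m).N * S.h = S.N * S.h - 2 * (m * S.h) := by
    rw [hNc]
    ring
  refine ⟨?_, hNc, ?_, ?_, ?_, hsub, hshift, ?_, ?_⟩
  · refine ⟨hS.hX, hS.hK, hS.hh, hS.hJ, hS.hX5, ?_, ?_, hS.hr0, hS.hr1, ?_, ?_⟩
    · show 12 * S.K * S.L ≤ (cut S m).N * S.h
      rw [hNh]
      linarith
    · show (cut S m).N * S.h ≤ 13 * S.K * S.L
      rw [hNh]
      have h1 := hS.hI2
      have h2 : 0 ≤ (m : ℝ) * S.h := mul_nonneg hm0 hh.le
      linarith
    · show S.P ^ (100 * S.K) ≤ S.rho * S.x (S.a + m)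
      refine hS.hra.trans (mul_le_mul_of_nonneg_left ?_ hS.hr0.le)
      exact Par.x_mono hh (by omega)
    · show S.x (S.b - m) ≤ S.X
      exact (Par.x_mono hh (by omega)).trans hS.hb
  · by_contra hneg
    have h1 : (cut S m).N * S.h < 0 := mul_neg_of_neg_of_pos (not_le.1 hneg) hh
    rw [hNh] at h1
    linarith
  · rw [hNc]
    linarith
  · have h1 : S.N * S.h ≤ 13 / 12 * (cut S m).N * S.h := by
      have h2 := hS.hI2
      have h3 : 13 / 12 * (cut S m).N * S.h = 13 / 12 * ((cut S m).N * S.h) := by ring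
      rw [h3, hNh]
      linarith
    exact le_of_mul_le_mul_right h1 hh
  · intro E
    unfold Par.cnt
    rw [Nat.cast_le]
    refine card_le_card fun t ht => ?_
    rw [Par.mem_fl] at ht ⊢
    exact ⟨hsub ht.1, ht.2⟩
  · intro E v hv
    unfold Par.cnt
    rw [Nat.cast_le]
    apply card_le_card_of_injOn (fun t => t + v)
    · intro t ht
      rw [mem_coe, Par.mem_fl] at ht
      rw [mem_coe, Par.mem_fl]
      exact ⟨hshift t ht.1 v hv, ht.2⟩
    · intro s _ t _ hst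
      simpa using hst

end Pool.Agent.H13.GSA
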